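import Pool.Agent.Helper26.MCE.GoalsC

namespace Pool.Agent.Helper88.MCE

open Pool.Agent.Helper26.MCE

theorem cube_root {a : ℝ} (ha : 0 < a) : (a ^ ((1 : ℝ) / 3)) ^ 3 = a := by
  rw [← Real.rpow_natCast, ← Real.rpow_mul ha.le]
  norm_num

theorem two_thirds {a : ℝ} (ha : 0 < a) : a ^ ((2 : ℝ) / 3) = (a ^ ((1 : ℝ) / 3)) ^ 2 := by
  rw [← Real.rpow_natCast, ← Real.rpow_mul ha.le]
  norm_num

theorem log_three : (1.09 : ℝ) ≤ Real.log 3 := by
  have he : Real.exp 1 < 2.7182818286 := Real.exp_one_lt_d9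
  have he0 : 0 < Real.exp 1 := Real.exp_pos 1
  have h1 : 1 - (3 / Real.exp 1)⁻¹ ≤ Real.log (3 / Real.exp 1) :=
    Real.one_sub_inv_le_log_of_pos (by positivity)
  have h2 : Real.log (3 / Real.exp 1) = Real.log 3 - 1 := by
    rw [Real.log_div (by norm_num) he0.ne', Real.log_exp]
  rw [h2, inv_div] at h1
  linarith

theorem goalNUM : G_NUM := by
  refine ⟨30000, by norm_num, ?_⟩
  intro n k hn hk hle
  have hn' : (3 : ℝ) ≤ n := by exact_mod_cast hn
  have hn0 : (0 : ℝ) < n := by linarith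
  obtain ⟨L, hL⟩ : ∃ L, L = Real.log n := ⟨_, rfl⟩
  rw [← hL] at hle
  have hL1 : (1.09 : ℝ) ≤ L := by
    rw [hL]
    exact log_three.trans (Real.log_le_log (by norm_num) hn')
  have hL0 : 0 < L := by linarith
  obtain ⟨l, hl⟩ : ∃ l, l = Real.log L := ⟨_, rfl⟩
  rw [← hl] at hle
  have hl1 : (0.08 : ℝ) ≤ l := by
    have h := Real.one_sub_inv_le_log_of_pos hL0
    have h2 : L⁻¹ ≤ (1.09 : ℝ)⁻¹ := inv_anti₀ (by norm_num) hL1
    rw [hl]
    have h3 : (0.08 : ℝ) ≤ 1 - (1.09 : ℝ)⁻¹ := by norm_num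
    linarith
  have hl0 : 0 < l := by linarith
  have hlL : l ≤ L := by
    rw [hl]
    exact (Real.log_le_sub_one_of_pos hL0).trans (by linarith)
  -- the number Q
  obtain ⟨Q, hQ⟩ : ∃ Q : ℕ, Q = ⌈(2 : ℝ) ^ 20 * (1 + L) ^ 2⌉₊ := ⟨_, rfl⟩
  have hQ1 : (2 : ℝ) ^ 20 * (1 + L) ^ 2 ≤ Q := by
    rw [hQ]
    exact Nat.le_ceil _
  have hQ2 : (Q : ℝ) ≤ 2 ^ 23 * L ^ 2 := by
    have h := (Nat.ceil_lt_add_one (a := (2 : ℝ) ^ 20 * (1 + L) ^ 2) (by positivity)).le
    rw [← hQ] at h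
    have h1 : (1 + L) ^ 2 ≤ 4 * L ^ 2 := by nlinarith
    have h2 : (1 : ℝ) ≤ L ^ 2 := by nlinarith
    have h3 : (2 : ℝ) ^ 20 = 1048576 := by norm_num
    have h4 : (2 : ℝ) ^ 23 = 8388608 := by norm_num
    rw [h3] at h
    rw [h4]
    linarith
  have hQ3 : (2 : ℝ) ^ 20 ≤ Q := by
    have h1 : (1 : ℝ) ≤ (1 + L) ^ 2 := by nlinarith
    have h3 : (2 : ℝ) ^ 20 = 1048576 := by norm_num
    rw [h3] at hQ1 ⊢
    linarith
  have hQ0 : (0 : ℝ) < Q := by
    have : (0 : ℝ) < 2 ^ 20 := by norm_num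
    linarith
  obtain ⟨q, hq⟩ : ∃ q, q = Real.log Q := ⟨_, rfl⟩
  have hq1 : 1 ≤ q := by
    have he : Real.exp 1 < 2.7182818286 := Real.exp_one_lt_d9
    have h1 : Real.exp 1 ≤ Q := by
      have : (2.7182818286 : ℝ) ≤ 2 ^ 20 := by norm_num
      linarith
    rw [hq, ← Real.log_exp 1]
    exact Real.log_le_log (Real.exp_pos 1) h1
  have hq0 : 0 < q := by linarith
  have hq2 : q ≤ 202 * l := by
    have h1 : q ≤ Real.log (2 ^ 23 * L ^ 2) := by
      rw [hq]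
      exact Real.log_le_log hQ0 hQ2
    have h2 : Real.log ((2 : ℝ) ^ 23 * L ^ 2) = 23 * Real.log 2 + 2 * l := by
      rw [Real.log_mul (by positivity) (by positivity), Real.log_pow, Real.log_pow, hl]
      norm_num
    have h3 := Real.log_two_lt_d9
    rw [h2] at h1
    linarith
  -- cube roots
  obtain ⟨x, hx⟩ : ∃ x, x = L ^ ((1 : ℝ) / 3) := ⟨_, rfl⟩
  obtain ⟨y, hy⟩ : ∃ y, y = q ^ ((1 : ℝ) / 3) := ⟨_, rfl⟩
  obtain ⟨z, hz⟩ : ∃ z, z = l ^ ((1 : ℝ) / 3) := ⟨_, rfl⟩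
  have hx0 : 0 < x := by rw [hx]; positivity
  have hy0 : 0 < y := by rw [hy]; positivity
  have hz0 : 0 < z := by rw [hz]; positivity
  have hx3 : x ^ 3 = L := by rw [hx]; exact cube_root hL0
  have hy3 : y ^ 3 = q := by rw [hy]; exact cube_root hq0
  have hz3 : z ^ 3 = l := by rw [hz]; exact cube_root hl0
  have hx2 : L ^ ((2 : ℝ) / 3) = x ^ 2 := by rw [hx]; exact two_thirds hL0
  rw [hx2, ← hz] at hle
  have hzx : z ≤ x := by
    refine le_of_pow_le_pow_left₀ (n := 3) (by norm_num) hx0.le ?_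
    rw [hz3, hx3]
    exact hlL
  have hyz : y ≤ 6 * z := by
    refine le_of_pow_le_pow_left₀ (n := 3) (by norm_num) (by positivity) ?_
    rw [mul_pow, hy3, hz3]
    linarith
  have hy1 : 1 ≤ y := by
    refine le_of_pow_le_pow_left₀ (n := 3) (by norm_num) hy0.le ?_
    rw [hy3]
    linarith
  have hx1 : 1 ≤ x := by
    refine le_of_pow_le_pow_left₀ (n := 3) (by norm_num) hx0.le ?_
    rw [hx3]
    linarith
  -- the number r
  obtain ⟨r, hr⟩ : ∃ r : ℕ, r = ⌈x / y⌉₊ := ⟨_, rfl⟩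
  have hxy0 : 0 < x / y := by positivity
  have hr1 : x / y ≤ r := by
    rw [hr]
    exact Nat.le_ceil _
  have hr2 : (r : ℝ) ≤ x / y + 1 := by
    rw [hr]
    exact (Nat.ceil_lt_add_one hxy0.le).le
  have hrpos : 1 ≤ r := by
    rw [hr]
    exact Nat.one_le_iff_ne_zero.mpr (Nat.ceil_pos.mpr hxy0).ne'
  have hxyL : x / y ≤ L := by
    have h1 : x / y ≤ x := div_le_self hx0.le hy1
    have h2 : x ≤ x ^ 3 := le_self_pow₀ hx1 (by norm_num)
    rw [hx3] at h2
    linarith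
  have hr0 : (0 : ℝ) ≤ r := Nat.cast_nonneg r
  refine ⟨Q, r, hrpos, ?_, ?_, ?_, ?_⟩
  · have h1 : (1024 : ℝ) * ((r : ℝ) + 1) ^ 2 ≤ Q := by
      have h2 : (r : ℝ) + 1 ≤ 2 * (1 + L) := by linarith
      have h3 : ((r : ℝ) + 1) ^ 2 ≤ (2 * (1 + L)) ^ 2 := by
        apply pow_le_pow_left₀ (by positivity) h2
      have h4 : (2 * (1 + L)) ^ 2 = 4 * (1 + L) ^ 2 := by ring
      have h5 : (0 : ℝ) ≤ (1 + L) ^ 2 := sq_nonneg _
      have h6 : (2 : ℝ) ^ 20 = 1048576 := by norm_num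
      rw [h6] at hQ1
      rw [h4] at h3
      linarith
    exact_mod_cast h1
  · have h1 : (n : ℝ) ≤ 2 ^ Q := by
      have h2 : Real.log n ≤ Real.log (2 ^ Q) := by
        rw [Real.log_pow, ← hL]
        have h3 := Real.log_two_gt_d9
        have h4 : L ≤ Q * (1 / 2 : ℝ) := by
          have h6 : (2 : ℝ) ^ 20 = 1048576 := by norm_num
          rw [h6] at hQ1
          have h7 : L ≤ (1 + L) ^ 2 := by nlinarith
          linarith
        have h5 : (Q : ℝ) * (1 / 2) ≤ Q * Real.log 2 := by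
          apply mul_le_mul_of_nonneg_left _ hQ0.le
          linarith
        linarith
      exact (Real.log_le_log_iff hn0 (by positivity)).mp h2
    exact_mod_cast h1
  · have h1 : (n : ℝ) ≤ (Q : ℝ) ^ (r ^ 3) := by
      have h2 : Real.log n ≤ Real.log ((Q : ℝ) ^ (r ^ 3)) := by
        rw [Real.log_pow, ← hL, ← hq]
        push_cast
        have h3 : (x / y) ^ 3 ≤ (r : ℝ) ^ 3 := pow_le_pow_left₀ hxy0.le hr1 3
        have h4 : (x / y) ^ 3 * q = L := by
          rw [div_pow, hx3, hy3]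
          field_simp
        rw [← h4]
        exact mul_le_mul_of_nonneg_right h3 hq0.le
      exact (Real.log_le_log_iff hn0 (by positivity)).mp h2
    exact_mod_cast h1
  · have h1 : ((k : ℝ)) ^ 2 * (Q : ℝ) ^ (100 * r ^ 2) ≤ n := by
      have hQe : (Q : ℝ) ^ (100 * r ^ 2) = Real.exp (100 * (r : ℝ) ^ 2 * q) := by
        rw [hq, ← Real.exp_log (pow_pos hQ0 (100 * r ^ 2)), Real.log_pow]
        push_cast
        rfl
      have hk2 : (k : ℝ) ^ 2 ≤ n * Real.exp (-60000 * (x ^ 2 * z)) := by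
        have h2 : (k : ℝ) ^ 2 ≤ (Real.sqrt n * Real.exp (-30000 * x ^ 2 * z)) ^ 2 :=
          pow_le_pow_left₀ (Nat.cast_nonneg k) hle 2
        rw [mul_pow, Real.sq_sqrt hn0.le, ← Real.exp_nat_mul] at h2
        have h3 : ((2 : ℕ) : ℝ) * (-30000 * x ^ 2 * z) = -60000 * (x ^ 2 * z) := by
          push_cast
          ring
        rw [h3] at h2
        exact h2
      have hrq : (r : ℝ) ^ 2 * q ≤ 416 * (x ^ 2 * z) := by
        have h2 : (r : ℝ) ^ 2 ≤ (x / y + 1) ^ 2 := pow_le_pow_left₀ hr0 hr2 2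
        have h3 : (x / y + 1) ^ 2 ≤ 2 * (x / y) ^ 2 + 2 := by nlinarith [sq_nonneg (x / y - 1)]
        have h4 : (x / y) ^ 2 * q = x ^ 2 * y := by
          rw [← hy3, div_pow]
          field_simp
        have h5 : (r : ℝ) ^ 2 * q ≤ (2 * (x / y) ^ 2 + 2) * q :=
          mul_le_mul_of_nonneg_right (h2.trans h3) hq0.le
        have h6 : x ^ 2 * y ≤ x ^ 2 * (6 * z) := mul_le_mul_of_nonneg_left hyz (by positivity)
        have h7 : l ≤ x ^ 2 * z := by
          rw [← hz3]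
          have h8 : z ^ 2 ≤ x ^ 2 := pow_le_pow_left₀ hz0.le hzx 2
          have h9 := mul_le_mul_of_nonneg_right h8 hz0.le
          calc z ^ 3 = z ^ 2 * z := by ring
            _ ≤ x ^ 2 * z := h9
        have h10 : (2 * (x / y) ^ 2 + 2) * q = 2 * ((x / y) ^ 2 * q) + 2 * q := by ring
        rw [h10, h4] at h5
        have h11 : x ^ 2 * (6 * z) = 6 * (x ^ 2 * z) := by ring
        rw [h11] at h6
        linarith
      have hpos : 0 < x ^ 2 * z := by positivity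
      calc (k : ℝ) ^ 2 * (Q : ℝ) ^ (100 * r ^ 2)
          ≤ (n * Real.exp (-60000 * (x ^ 2 * z))) * Real.exp (60000 * (x ^ 2 * z)) := by
            rw [hQe]
            apply mul_le_mul hk2 _ (Real.exp_pos _).le (by positivity)
            apply Real.exp_le_exp.mpr
            have h12 : 100 * (r : ℝ) ^ 2 * q = 100 * ((r : ℝ) ^ 2 * q) := by ring
            rw [h12]
            linarith
        _ = n := by
            rw [mul_assoc, ← Real.exp_add]
            simp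
    exact_mod_cast h1

end Pool.Agent.Helper88.MCE
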